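import Mathlib

/-!
# A regular graph realizable as first and second neighbourhoods that is not vertex-transitive

The graph `G` is the antipodal double cover (a Taylor graph with 72 vertices) of the regular
two-graph on 36 points coming from the Latin square graph of the cyclic group of order 6.
It is a Cayley graph of `ZMod 6 × ZMod 6 × ZMod 2`. Its first and second neighbourhoods are
isomorphic to a strongly regular graph with parameters (35, 16, 6, 8) which is not
vertex-transitive.
-/

set_option autoImplicit false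

namespace Pool.Agent.Results.MP_824d98_co.NonTransitiveRealizable

/-- The `k`-neighbourhood `N_k(x, G)`: the subgraph of `G` induced by the set of vertices at
distance exactly `k` from `x` (`edist` is the graph distance with value infinity between different
components). -/
def nbhd {V : Type} (G : SimpleGraph V) (k : ℕ) (x : V) : SimpleGraph {y : V | G.edist x y = k} :=
  G.induce {y : V | G.edist x y = k}

/-- `H` is (1,2)-realizable: some finite nonempty graph `G` has both `N_1(x, G)` and `N_2(x, G)`
isomorphic to `H` for every vertex `x`. -/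
def Realizable {W : Type} (H : SimpleGraph W) : Prop :=
  ∃ (V : Type) (_ : Finite V) (_ : Nonempty V) (G : SimpleGraph V), ∀ x : V,
    Nonempty (nbhd G 1 x ≃g H) ∧ Nonempty (nbhd G 2 x ≃g H)

/-- `H` is regular: all vertices have the same degree. -/
def Regular {W : Type} (H : SimpleGraph W) : Prop :=
  ∃ d : ℕ, ∀ v : W, (H.neighborSet v).ncard = d

/-- `H` is vertex-transitive: any vertex is carried to any other by an automorphism of `H`. -/
def VertexTransitive {W : Type} (H : SimpleGraph W) : Prop :=
  ∀ u v : W, ∃ φ : H ≃g H, φ u = v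

/-- the group -/
abbrev A : Type := ZMod 6 × ZMod 6 × ZMod 2

/-- membership test for the connection set of the Cayley graph -/
def f (x : A) : Bool :=
  (!(x.1 == 0 && x.2.1 == 0)) &&
    ((x.2.2 == 1) == (x.1 == 0 || x.2.1 == 0 || x.1 + x.2.1 == 0))

theorem f_neg : ∀ x : A, f (-x) = f x := by decide +kernel

theorem f_zero : f 0 = false := by decide +kernel

/-- the Taylor graph as a Cayley graph -/
def G : SimpleGraph A where
  Adj x y := f (x - y) = true
  symm := ⟨fun x y h => by rw [← neg_sub, f_neg]; exact h⟩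
  loopless := ⟨fun x h => by rw [sub_self, f_zero] at h; exact Bool.false_ne_true h⟩

theorem G_adj (x y : A) : G.Adj x y ↔ f (x - y) = true := Iff.rfl

/-- the local graph -/
def H : SimpleGraph {y : A // f y = true} where
  Adj x y := f (x.1 - y.1) = true
  symm := ⟨fun x y h => by rw [← neg_sub, f_neg]; exact h⟩
  loopless := ⟨fun x h => by rw [sub_self, f_zero] at h; exact Bool.false_ne_true h⟩

theorem H_adj (x y : {y : A // f y = true}) : H.Adj x y ↔ f (x.1 - y.1) = true := Iff.rfl

instance : DecidableRel H.Adj := fun x y => inferInstanceAs (Decidable (f (x.1 - y.1) = true))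

theorem dist_one_iff (x y : A) : G.edist x y = (1 : ℕ) ↔ f (y - x) = true := by
  rw [Nat.cast_one, SimpleGraph.edist_eq_one_iff_adj, G_adj, ← neg_sub, f_neg]

theorem two_key : ∀ z : A, (z ≠ 0 ∧ f z = false ∧ ∃ c : A, f c = true ∧ f (z - c) = true) ↔
    f (z + (0, 0, 1)) = true := by
  decide +kernel

theorem dist_two_iff (x y : A) : G.edist x y = (2 : ℕ) ↔ f (y + (0, 0, 1) - x) = true := by
  have h2 : ((2 : ℕ) : ℕ∞) = 2 := rfl
  rw [h2, SimpleGraph.edist_eq_two_iff]
  have h3 : y + (0, 0, 1) - x = (y - x) + (0, 0, 1) := by abel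
  rw [h3, ← two_key]
  constructor
  · rintro ⟨h4, h5, z, hz⟩
    rw [SimpleGraph.mem_commonNeighbors] at hz
    refine ⟨fun h => h4 (sub_eq_zero.1 h).symm, ?_, z - x, ?_, ?_⟩
    · rw [G_adj, ← neg_sub, f_neg] at h5
      simpa using h5
    · have := hz.1
      rw [G_adj, ← neg_sub, f_neg] at this
      exact this
    · have := hz.2
      rw [G_adj] at this
      have h6 : y - x - (z - x) = y - z := by abel
      rw [h6]; exact this
  · rintro ⟨h4, h5, c, hc1, hc2⟩
    refine ⟨fun h => h4 (by rw [h, sub_self]), ?_, c + x, ?_⟩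
    · rw [G_adj, ← neg_sub, f_neg, h5]
      exact Bool.false_ne_true
    · rw [SimpleGraph.mem_commonNeighbors]
      constructor
      · rw [G_adj, ← neg_sub, f_neg]
        have h6 : c + x - x = c := by abel
        rw [h6]; exact hc1
      · rw [G_adj]
        have h6 : y - (c + x) = y - x - c := by abel
        rw [h6]; exact hc2

/-- `N_1(x)` is isomorphic to `H`. -/
def iso1 (x : A) : nbhd G 1 x ≃g H where
  toFun y := ⟨y.1 - x, (dist_one_iff x y.1).1 y.2⟩
  invFun z := ⟨z.1 + x, by
    have h : z.1 + x - x = z.1 := by abel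
    exact (dist_one_iff x _).2 (by rw [h]; exact z.2)⟩
  left_inv y := by
    apply Subtype.ext
    show y.1 - x + x = y.1
    abel
  right_inv z := by
    apply Subtype.ext
    show z.1 + x - x = z.1
    abel
  map_rel_iff' := by
    intro a b
    show f ((a.1 - x) - (b.1 - x)) = true ↔ f (a.1 - b.1) = true
    have h : (a.1 - x) - (b.1 - x) = a.1 - b.1 := by abel
    rw [h]

/-- `N_2(x)` is isomorphic to `H`. -/
def iso2 (x : A) : nbhd G 2 x ≃g H where
  toFun y := ⟨y.1 + (0, 0, 1) - x, (dist_two_iff x y.1).1 y.2⟩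
  invFun z := ⟨z.1 - (0, 0, 1) + x, by
    have h : z.1 - (0, 0, 1) + x + (0, 0, 1) - x = z.1 := by abel
    exact (dist_two_iff x _).2 (by rw [h]; exact z.2)⟩
  left_inv y := by
    apply Subtype.ext
    show y.1 + (0, 0, 1) - x - (0, 0, 1) + x = y.1
    abel
  right_inv z := by
    apply Subtype.ext
    show z.1 - (0, 0, 1) + x + (0, 0, 1) - x = z.1
    abel
  map_rel_iff' := by
    intro a b
    show f ((a.1 + (0, 0, 1) - x) - (b.1 + (0, 0, 1) - x)) = true ↔ f (a.1 - b.1) = true
    have h : (a.1 + (0, 0, 1) - x) - (b.1 + (0, 0, 1) - x) = a.1 - b.1 := by abel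
    rw [h]

theorem H_realizable : Realizable H :=
  ⟨A, inferInstance, inferInstance, G, fun x => ⟨⟨iso1 x⟩, ⟨iso2 x⟩⟩⟩

theorem H_degree : ∀ v : {y : A // f y = true},
    (Finset.univ.filter (fun w => H.Adj v w)).card = 16 := by
  decide +kernel

theorem H_regular : Regular H := by
  refine ⟨16, fun v => ?_⟩
  have h : H.neighborSet v = ((Finset.univ.filter (fun w => H.Adj v w) :
      Finset {y : A // f y = true}) : Set {y : A // f y = true}) := by
    ext w
    simp [SimpleGraph.mem_neighborSet]
  rw [h, Set.ncard_coe_finset, H_degree]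

theorem H_conn_key : ∀ v w : {y : A // f y = true}, ∃ z, (H.Adj v z ∧ H.Adj z w) := by
  decide +kernel

theorem H_connected : H.Connected := by
  have : Nonempty {y : A // f y = true} := ⟨⟨(0, 1, 1), by decide +kernel⟩⟩
  refine ⟨fun v w => ?_⟩
  obtain ⟨z, h1, h2⟩ := H_conn_key v w
  exact h1.reachable.trans h2.reachable

/-- `u` and `a` lie in a common complete subgraph with five vertices. -/
def inK5 {W : Type} (K : SimpleGraph W) (u a : W) : Prop :=
  ∃ b, (K.Adj u b ∧ K.Adj a b) ∧ ∃ c, (K.Adj u c ∧ K.Adj a c ∧ K.Adj b c) ∧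
    ∃ d, K.Adj u d ∧ K.Adj a d ∧ K.Adj b d ∧ K.Adj c d

instance (u a : {y : A // f y = true}) : Decidable (inK5 H u a) := by
  unfold inK5; infer_instance

theorem inK5_map {W : Type} {K : SimpleGraph W} (φ : K ≃g K) {u a : W} (h : inK5 K u a) :
    inK5 K (φ u) (φ a) := by
  obtain ⟨b, ⟨h1, h2⟩, c, ⟨h3, h4, h5⟩, d, h6, h7, h8, h9⟩ := h
  exact ⟨φ b, ⟨φ.map_rel_iff.2 h1, φ.map_rel_iff.2 h2⟩, φ c,
    ⟨φ.map_rel_iff.2 h3, φ.map_rel_iff.2 h4, φ.map_rel_iff.2 h5⟩, φ d,
    φ.map_rel_iff.2 h6, φ.map_rel_iff.2 h7, φ.map_rel_iff.2 h8, φ.map_rel_iff.2 h9⟩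

/-- the vertex all of whose incident edges lie in complete subgraphs with five vertices -/
def v0 : {y : A // f y = true} := ⟨(0, 1, 1), by decide +kernel⟩

/-- a vertex without that property -/
def u0 : {y : A // f y = true} := ⟨(1, 1, 0), by decide +kernel⟩

theorem v0_prop : ∀ a, H.Adj v0 a → inK5 H v0 a := by
  decide +kernel

theorem u0_prop : ∃ a, H.Adj u0 a ∧ ¬ inK5 H u0 a := by
  decide +kernel

theorem H_not_transitive : ¬ VertexTransitive H := by
  intro h
  obtain ⟨φ, hφ⟩ := h u0 v0
  obtain ⟨a, ha1, ha2⟩ := u0_prop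
  apply ha2
  have h1 : H.Adj v0 (φ a) := by
    rw [← hφ]; exact φ.map_rel_iff.2 ha1
  have h2 := inK5_map φ.symm (v0_prop _ h1)
  rw [← hφ] at h2
  simpa using h2

/-- There is a finite, connected, regular, (1,2)-realizable graph that is not vertex-transitive. -/
theorem result : ∃ (W : Type) (_ : Finite W) (H : SimpleGraph W),
    H.Connected ∧ Regular H ∧ Realizable H ∧ ¬ VertexTransitive H :=
  ⟨_, inferInstance, H, H_connected, H_regular, H_realizable, H_not_transitive⟩

end Pool.Agent.Results.MP_824d98_co.NonTransitiveRealizable
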